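import Pool.Agent.Helper4.MCP.GoalsB

/-!
Project MCP (MP_d8224a_co): `G_CNTP` (probability of a pattern).
-/

set_option autoImplicit false

namespace Pool.Agent.Helper16.MCP

open Pool.Agent.Helper4.MCP Pool.Agent.Helper26.MCE Pool.Agent.Helper87.MC Finset

open Classical in
/-- The covers with the pattern `π` inject into the tuples of hosts. -/
theorem cnt_aux (h2 : G_PAT) {G : Type} [AddCommGroup G] [Fintype G] {Λ : Type} [Fintype Λ]
    {M s : ℕ} (W : Λ → AddSubgroup G) (B : Finset Λ) (ω : Fin M → G)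
    (P : Finset (G × Finset (Fin M))) (a : Fin s → Λ) (π : Fin s → Option (Fin s))
    (hd : ∀ p ∈ P, ∀ p' ∈ P, p ≠ p' → Disjoint p.2 p'.2)
    (hP : ∀ p ∈ P, pat W ω B p a = π)
    (A : Type) [Fintype A] [Nonempty A] (L : A → Fin s) (hL : ∀ x, π (L x) = some (L x))
    (hinj : Function.Injective L) :
    P.card ≤ (univ.filter fun v : A → Fin M => Function.Injective v ∧
      ∃ g, ∀ x, g - ω (v x) ∈ (⨅ i ∈ blk π (L x), W (a i) : AddSubgroup G)).card := by
  have key : ∀ p : G × Finset (Fin M), p ∈ P → ∃ v : A → Fin M, Function.Injective v ∧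
      (∀ x, v x ∈ p.2) ∧
      ∀ x, p.1 - ω (v x) ∈ (⨅ i ∈ blk π (L x), W (a i) : AddSubgroup G) := by
    intro p hp
    obtain ⟨hown, -, -, -, hblk, -, -⟩ := h2 G Λ M s W ω B p a
    have h : ∀ x : A, ∃ v ∈ p.2, blk π (L x) = univ.filter fun i => a i ∈ own W ω B p v := by
      intro x
      have := hblk (L x) (by rw [hP p hp]; exact hL x)
      rw [hP p hp] at this
      obtain ⟨v, hv, hvb⟩ := this
      refine ⟨v, hv, ?_⟩
      rw [hvb]
    choose v hv hvb using h
    refine ⟨v, ?_, hv, ?_⟩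
    · intro x y hxy
      apply hinj
      have h1 : L x ∈ blk π (L y) := by
        rw [hvb y, ← hxy, ← hvb x]
        simp only [blk, mem_filter, mem_univ, true_and]
        exact hL x
      simp only [blk, mem_filter, mem_univ, true_and] at h1
      rw [hL x] at h1
      exact Option.some_injective _ h1
    · intro x
      simp only [AddSubgroup.mem_iInf]
      intro i hi
      rw [hvb x] at hi
      simp only [mem_filter, mem_univ, true_and] at hi
      have := (hown (v x)).2 hi
      simp only [TB, mem_filter] at this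
      exact this.2
  choose v hvi hvm hvK using key
  rw [← Finset.card_attach (s := P)]
  refine Finset.card_le_card_of_injOn (fun p => v p.1 p.2) ?_ ?_
  · intro p _
    have hmem : v p.1 p.2 ∈ (univ.filter fun v : A → Fin M => Function.Injective v ∧
      ∃ g, ∀ x, g - ω (v x) ∈ (⨅ i ∈ blk π (L x), W (a i) : AddSubgroup G)) := by
      rw [Finset.mem_filter]
      exact ⟨Finset.mem_univ _, hvi p.1 p.2, p.1.1, hvK p.1 p.2⟩
    exact hmem
  · intro p _ p' _ hpp
    by_contra hne
    have hdis := hd p.1 p.2 p'.1 p'.2 (fun h => hne (Subtype.ext h))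
    obtain ⟨x⟩ := ‹Nonempty A›
    have h1 := hvm p.1 p.2 x
    have h1' := hvm p'.1 p'.2 x
    simp only at hpp
    rw [← hpp] at h1'
    exact (Finset.disjoint_left.mp hdis) h1 h1'

/-- The sum over the hosts. -/
theorem cnt_sum (h1 : G_SPR) (h2 : G_PAT) {G : Type} [AddCommGroup G] [Fintype G] {Λ : Type}
    [Fintype Λ] {M s : ℕ} (W : Λ → AddSubgroup G) (B : Finset Λ)
    (P : (Fin M → G) → Finset (G × Finset (Fin M))) (a : Fin s → Λ) (π : Fin s → Option (Fin s))
    (hd : ∀ ω, ∀ p ∈ P ω, ∀ p' ∈ P ω, p ≠ p' → Disjoint p.2 p'.2)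
    (hP : ∀ ω, ∀ p ∈ P ω, pat W ω B p a = π)
    (A : Type) [Fintype A] [Nonempty A] (L : A → Fin s) (hL : ∀ x, π (L x) = some (L x))
    (hinj : Function.Injective L) :
    (∑ ω, (P ω).card) *
      Nat.card (⨅ x, (⨅ i ∈ blk π (L x), W (a i) : AddSubgroup G) : AddSubgroup G) *
      Fintype.card G ^ Fintype.card A ≤
    M ^ Fintype.card A * Fintype.card G ^ M *
      (Fintype.card G * ∏ x, Nat.card (⨅ i ∈ blk π (L x), W (a i) : AddSubgroup G)) := by
  refine le_trans ?_ (h1 G M A fun x => (⨅ i ∈ blk π (L x), W (a i) : AddSubgroup G))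
  apply Nat.mul_le_mul_right
  apply Nat.mul_le_mul_right
  exact Finset.sum_le_sum fun ω _ =>
    cnt_aux h2 W B ω (P ω) a π (hd ω) (hP ω) A L hL hinj

theorem cnt_alg (M n w Pk : ℝ) (j r : ℕ) (hn : 0 < n) (hM : 0 < M) (hw : 0 < w) :
    M ^ j * n ^ r * (n * Pk) / (w * n ^ j) =
      (M * n ^ r) * ((M / n * w)⁻¹ * ((M / n) ^ j * Pk)) := by
  rw [div_pow]
  field_simp

theorem goalCNTP (h1 : G_SPR) (h2 : G_PAT) : G_CNTP := by
  classical
  intro G _ _ Λ _ M s W B F a c π hM hdis hN hnb
  set n : ℝ := (Fintype.card G : ℝ) with hn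
  have hnpos : (0 : ℝ) < n := by
    rw [hn]; exact_mod_cast Fintype.card_pos
  have hMpos : (0 : ℝ) < (M : ℝ) := by exact_mod_cast hM
  set N : ℝ := ∑ ω, ((F ω).card : ℝ) with hNdef
  have hN0 : 0 ≤ N := Finset.sum_nonneg fun ω _ => by positivity
  set lam : ℝ := (M : ℝ) / n with hlam
  have hlampos : 0 < lam := div_pos hMpos hnpos
  set I : Finset (Fin s) := univ.filter fun i => a i ∈ B with hI
  by_cases hex : ∃ ω, ∃ p ∈ F ω, pat W ω B p a = π
  swap
  · push Not at hex
    have : ∑ ω, (((F ω).filter fun p => pat W ω B p a = π).card : ℝ) = 0 := by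
      apply Finset.sum_eq_zero
      intro ω _
      have h0 : ((F ω).filter (fun p => pat W ω B p a = π)).card = 0 := by
        rw [Finset.card_eq_zero]
        apply Finset.filter_false_of_mem
        intro p hp
        exact hex ω p hp
      exact_mod_cast h0
    rw [this]
    exact mul_nonneg hN0 (Real.exp_pos _).le
  obtain ⟨ω₀, p₀, hp₀, hpat₀⟩ := hex
  have hcan : Can I π := by
    have := (h2 G Λ M s W ω₀ B p₀ a).2.2.2.1
    rw [hpat₀] at this
    convert this using 1
  -- the leaders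
  let A : Type := {l : Fin s // π l = some l}
  have hAcard : Fintype.card A = nb π := by
    unfold nb
    rw [Fintype.card_subtype]
  have : Nonempty A := by
    rw [← Fintype.card_pos_iff]; omega
  let K : A → AddSubgroup G := fun x => ⨅ i ∈ blk π x.1, W (a i)
  set X : ℕ := ∑ ω : Fin M → G, ((F ω).filter fun p => pat W ω B p a = π).card with hX
  have hspr : X * Nat.card (⨅ x, K x : AddSubgroup G) * Fintype.card G ^ Fintype.card A ≤
        M ^ Fintype.card A * Fintype.card G ^ M *
          (Fintype.card G * ∏ x, Nat.card (K x)) := by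
    refine cnt_sum h1 h2 W B (fun ω => (F ω).filter fun p => pat W ω B p a = π) a π ?_ ?_ A
      (fun x => x.1) (fun x => x.2) Subtype.val_injective
    · intro ω p hp p' hp' hne
      exact hdis ω p (Finset.mem_filter.mp hp).1 p' (Finset.mem_filter.mp hp').1 hne
    · intro ω p hp
      exact (Finset.mem_filter.mp hp).2
  have hsumle : ∑ ω, (((F ω).filter fun p => pat W ω B p a = π).card : ℝ) ≤ (X : ℝ) := by
    rw [hX, Nat.cast_sum]
  refine hsumle.trans ?_
  -- the numbers
  set j := nb π with hj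
  have hκ : 0 < Nat.card (⨅ x, K x : AddSubgroup G) := Nat.card_pos
  have hspr' : (X : ℝ) * Nat.card (⨅ x, K x : AddSubgroup G) * n ^ j ≤
      (M : ℝ) ^ j * n ^ M * (n * ∏ x, (Nat.card (K x) : ℝ)) := by
    have h' := hspr
    rw [hAcard] at h'
    rw [hn]
    exact_mod_cast h'
  -- the infimum over I
  have hIne : I.Nonempty := by
    obtain ⟨x⟩ := ‹Nonempty A›
    exact ⟨x.1, (hcan x.1 x.1 x.2).1⟩
  set w : ℕ := Nat.card (⨅ i ∈ I, W (a i) : AddSubgroup G) with hw
  have hwpos : 0 < w := Nat.card_pos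
  have hwκ : w ≤ Nat.card (⨅ x, K x : AddSubgroup G) := by
    have hle : (⨅ i ∈ I, W (a i) : AddSubgroup G) ≤ ⨅ x, K x := by
      refine le_iInf fun x => le_iInf fun i => le_iInf fun hi => ?_
      have hiI : i ∈ I := by
        simp only [blk, mem_filter, mem_univ, true_and] at hi
        exact (hcan i x.1 hi).1
      exact iInf₂_le i hiI
    rw [hw]
    exact AddSubgroup.card_le_of_le hle
  have hyI : yy lam W a I = -Real.log (lam * w) := by
    unfold yy
    rw [if_neg (Finset.nonempty_iff_ne_empty.mp hIne)]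
  have hysum : ∑ l, yy lam W a (blk π l) = ∑ x : A, -Real.log (lam * Nat.card (K x)) := by
    have h3 : ∑ l, yy lam W a (blk π l) =
        ∑ l ∈ univ.filter (fun l => π l = some l), yy lam W a (blk π l) := by
      symm
      apply Finset.sum_subset (Finset.filter_subset _ _)
      intro l _ hl
      have : blk π l = ∅ := by
        by_contra hne
        obtain ⟨i, hi⟩ := Finset.nonempty_iff_ne_empty.mpr hne
        simp only [blk, mem_filter, mem_univ, true_and] at hi
        apply hl
        simp only [mem_filter, mem_univ, true_and]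
        exact (hcan i l hi).2.1
      rw [this]
      unfold yy
      simp
    rw [h3, Finset.sum_subtype (univ.filter fun l => π l = some l)
      (p := fun l => π l = some l) (by intro l; simp)]
    apply Finset.sum_congr rfl
    intro x _
    have hne : blk π x.1 ≠ ∅ := by
      apply Finset.nonempty_iff_ne_empty.mp
      refine ⟨x.1, ?_⟩
      simp only [blk, mem_filter, mem_univ, true_and]
      exact x.2
    unfold yy
    rw [if_neg hne]
  have hkpos : ∀ x : A, (0 : ℝ) < Nat.card (K x) := fun x => by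
    exact_mod_cast (Nat.card_pos : 0 < Nat.card (K x))
  have hwpos' : (0 : ℝ) < (w : ℝ) := by exact_mod_cast hwpos
  have hexp : Real.exp (c + yy lam W a I - ∑ l, yy lam W a (blk π l)) =
      Real.exp c * ((lam * w)⁻¹ * ∏ x : A, (lam * (Nat.card (K x) : ℝ))) := by
    rw [hyI, hysum, Finset.sum_neg_distrib]
    rw [show c + -Real.log (lam * w) - -∑ x : A, Real.log (lam * (Nat.card (K x) : ℝ)) =
      c + (-Real.log (lam * w) + ∑ x : A, Real.log (lam * (Nat.card (K x) : ℝ))) by ring]
    rw [Real.exp_add, Real.exp_add, Real.exp_neg, Real.exp_log (by positivity), Real.exp_sum]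
    congr 2
    apply Finset.prod_congr rfl
    intro x _
    exact Real.exp_log (mul_pos hlampos (hkpos x))
  rw [hexp]
  have hprod : ∏ x : A, (lam * (Nat.card (K x) : ℝ)) = lam ^ j * ∏ x : A, (Nat.card (K x) : ℝ) := by
    rw [Finset.prod_mul_distrib, Finset.prod_const, Finset.card_univ, hAcard]
  rw [hprod]
  set Pk : ℝ := ∏ x : A, (Nat.card (K x) : ℝ) with hPk
  have hPkpos : 0 < Pk := Finset.prod_pos fun x _ => hkpos x
  -- X ≤ M^j n^M n Pk / (w n^j)
  have hX1 : (X : ℝ) * w * n ^ j ≤ (M : ℝ) ^ j * n ^ M * (n * Pk) := by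
    refine le_trans ?_ hspr'
    have h6 : (w : ℝ) ≤ (Nat.card (⨅ x, K x : AddSubgroup G) : ℝ) := by exact_mod_cast hwκ
    exact mul_le_mul_of_nonneg_right (mul_le_mul_of_nonneg_left h6 (Nat.cast_nonneg _))
      (pow_pos hnpos _).le
  have hgoal : (X : ℝ) ≤ (M * n ^ M) * ((lam * w)⁻¹ * (lam ^ j * Pk)) := by
    have hnj : (0 : ℝ) < n ^ j := pow_pos hnpos _
    have h4 : (X : ℝ) ≤ (M : ℝ) ^ j * n ^ M * (n * Pk) / (w * n ^ j) := by
      rw [le_div_iff₀ (by positivity)]
      calc (X : ℝ) * (w * n ^ j) = X * w * n ^ j := by ring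
        _ ≤ _ := hX1
    refine h4.trans (le_of_eq ?_)
    rw [hlam]
    exact cnt_alg _ _ _ _ _ _ hnpos hMpos hwpos'
  refine hgoal.trans ?_
  have h5 : 0 ≤ (lam * w)⁻¹ * (lam ^ j * Pk) :=
    mul_nonneg (inv_nonneg.mpr (mul_pos hlampos hwpos').le) (mul_pos (pow_pos hlampos _) hPkpos).le
  calc (M * n ^ M) * ((lam * w)⁻¹ * (lam ^ j * Pk))
      ≤ (Real.exp c * N) * ((lam * w)⁻¹ * (lam ^ j * Pk)) :=
        mul_le_mul_of_nonneg_right hN h5
    _ = N * (Real.exp c * ((lam * w)⁻¹ * (lam ^ j * Pk))) := by ring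

end Pool.Agent.Helper16.MCP
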